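import Mathlib
import Pool.Agent.H913Z.QCubeMain

set_option autoImplicit false

open scoped TensorProduct

namespace Pool.Agent.Results.MP_a0e63f_al.AdjointSl3

open Pool.Agent.H913Z.QCube

/-- Zwicknagl's conjecture fails for `sl_3` and `V = V(ω₁ + ω₂)`, for every real `q > 0`, `q ≠ 1`. -/
theorem result (q : ℝ) (h0 : 0 < q) (h1 : q ≠ 1) :
    ∃ (V : Type) (_ : AddCommGroup V) (_ : Module ℂ V) (M : Gens (Module.End ℂ V)),
      FiniteDimensional ℂ V ∧ IsModule q M ∧ IsSimpleHW q M ![1, 1] ∧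
      (∃ C, IsCartanFactor q M C) ∧
      ∀ C, IsCartanFactor q M C →
        Intertwines (tensor M M) (braiding q M C) ∧
        ¬ CubesAreLow q M (braiding q M C) adjoint := by
  refine ⟨V8, inferInstance, inferInstance, adj q, inferInstance, isModule h0 h1, isSimple h0,
    exists_cartan h0 h1, fun C hC => ⟨braiding_commute h0 h1 hC, fun h => ?_⟩⟩
  have a : 0 < cubeMult q (adj q) (posPart (braiding q (adj q) C)) 0 := sym_pos h0 h1 hC
  have b : 0 < cubeMult q (adj q) (negPart (braiding q (adj q) C)) 0 := ext_pos h0 h1 hC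
  rw [← h.1 0 le_rfl, symLow] at a
  rw [← h.2 0 le_rfl, extLow] at b
  omega

end Pool.Agent.Results.MP_a0e63f_al.AdjointSl3
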